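import Pool.Agent.Helper43.UN.GoalsF
import Pool.Agent.Helper85.EW.GL

/-!
# UN-GNt: gluing at a corner triangle, the triangle side
-/

set_option autoImplicit false

namespace Pool.Agent.Helper56.UN

open Finset
open Pool.Agent.Lead.Sh
open Pool.Agent.Helper18.EW (GoalCP GoalWr GoalSw GoalInv GoalGT)
open Pool.Agent.Helper85.EW (ind_card invJ)
open Pool.Agent.Helper43.UN

theorem inj_card {D : Finset (ℕ × ℕ)} {R : Finset Row} (h : Inj D R) : D.card ≤ R.card := by
  classical
  obtain ⟨P, hP⟩ := h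
  set M : Matrix ↥R ↥D ℂ := Matrix.of (fun r d =>
    E (r : Row).2 (d : ℕ × ℕ) (P (r : Row).1).1 (P (r : Row).1).2) with hM
  have hinj : Function.Injective M.mulVecLin := by
    rw [injective_iff_map_eq_zero]
    intro l hl
    set l' : ℕ × ℕ → ℂ := fun r => if h : r ∈ D then l ⟨r, h⟩ else 0 with hl'
    have hl2 : ∀ r : ↥D, l' r = l r := by
      intro r
      simp only [hl']
      rw [dif_pos r.2]
    funext r
    rw [← hl2, Pi.zero_apply]
    refine hP l' ?_ r r.2
    intro d hd
    have h1 := congrFun hl ⟨d, hd⟩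
    rw [Matrix.mulVecLin_apply, Matrix.mulVec, dotProduct, Pi.zero_apply] at h1
    rw [← sum_coe_sort D, ← h1]
    apply sum_congr rfl
    intro r _
    rw [hl2, hM, Matrix.of_apply, mul_comm]
  have h2 := LinearMap.finrank_le_finrank_of_injective hinj
  rw [Module.finrank_fintype_fun_eq_card, Module.finrank_fintype_fun_eq_card,
    Fintype.card_coe, Fintype.card_coe] at h2
  exact h2

theorem card_tri_succ {e : ℕ} (he : 1 ≤ e) :
    (triD 0 e).card = (triD 0 (e - 1)).card + (e + 1) := by
  rw [card_triD, card_triD, show e - 1 + 2 = e + 1 by omega]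
  have h5 := Nat.choose_succ_succ' (e + 1) 1
  rw [Nat.choose_one_right] at h5
  have h6 : (e + 2).choose 2 = (e + 1 + 1).choose (1 + 1) := rfl
  have h7 : (e + 1).choose 2 = (e + 1).choose (1 + 1) := rfl
  omega

/-- the triangle without the last `w` cells of the diagonal -/
theorem inj_A (hCP : GoalCP) (hWr : GoalWr) (hSw : GoalSw) (hInv0 : GoalInv) (hGT0 : GoalGT)
    {m : ℕ → ℕ} {e w : ℕ} {t : Finset ℕ} (he : 1 ≤ e)
    (h1 : Ind (triD 0 e) (rows m t)) (h2 : Inj (triD 0 (e - 1)) (rows m t))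
    (hw : (triD 0 e).card ≤ (rows m t).card + w) :
    Inj ((triD 0 e).filter (fun x => x.1 + x.2 = e → x.1 + w ≤ e)) (rows m t) := by
  have hInv := hInv0 hCP
  have hGT := hGT0 hCP hWr
  have hA3 := invJ hSw hInv e _ m t (by
    intro x hx
    rw [mem_triD] at hx
    omega) h2
  have hA4 : (triD 0 (e - 1)).image (fun x => (x.1, e - x.1 - x.2)) =
      (triD 0 e).filter (fun x => x.2 ≠ 0) := by
    ext x
    rw [mem_image, mem_filter, mem_triD]
    constructor
    · rintro ⟨y, hy, rfl⟩
      rw [mem_triD] at hy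
      simp only
      omega
    · rintro ⟨h1, h2⟩
      refine ⟨(x.1, e - x.1 - x.2), ?_, ?_⟩
      · rw [mem_triD]
        simp only
        omega
      · ext
        · rfl
        · simp only
          omega
  rw [hA4] at hA3
  have hA5 := hGT (triD 0 e) m t 0 w (by
    intro x hx i hi
    rw [mem_triD] at hx ⊢
    simp only
    omega) h1 hA3 hw
  have hA6 := invJ hSw hInv e _ m t (by
    intro x hx
    rw [mem_filter, mem_triD] at hx
    omega) hA5
  have hA7 := hSw _ m t hA6
  refine hA7.mono ?_ subset_rfl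
  intro x hx
  rw [mem_filter, mem_triD] at hx
  rw [mem_image]
  refine ⟨(x.2, x.1), ?_, rfl⟩
  rw [mem_image]
  refine ⟨(x.2, e - x.2 - x.1), ?_, ?_⟩
  · rw [mem_filter, mem_triD]
    simp only
    omega
  · ext
    · rfl
    · simp only
      omega

/-- the diagonal polynomial -/
noncomputable def dg (e : ℕ) (f : ℕ × ℕ → ℂ) : Polynomial ℂ :=
  ∑ i ∈ range (e + 1), Polynomial.C (f (i, e - i)) * Polynomial.X ^ i

theorem coeff_dg (e : ℕ) (f : ℕ × ℕ → ℂ) (j : ℕ) :
    (dg e f).coeff j = if j ≤ e then f (j, e - j) else 0 := by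
  unfold dg
  rw [Polynomial.finsetSum_coeff]
  simp only [Polynomial.coeff_C_mul, Polynomial.coeff_X_pow, mul_ite, mul_one, mul_zero]
  rw [Finset.sum_ite_eq]
  by_cases h : j ≤ e
  · rw [if_pos h, if_pos (mem_range.2 (by omega))]
  · rw [if_neg h, if_neg (fun h' => h (by have := mem_range.1 h'; omega))]

/-- the basis of the kernel -/
theorem basis {m : ℕ → ℕ} {e w : ℕ} {t : Finset ℕ} {P : ℕ → ℂ × ℂ} (hwe : w ≤ e + 1)
    (hw : (triD 0 e).card = (rows m t).card + w)
    (hu : ∀ f : ℕ × ℕ → ℂ, (∀ r ∈ rows m t, ∑ d ∈ triD 0 e,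
      f d * E r.2 d (P r.1).1 (P r.1).2 = 0) →
      (∀ j, e < j + w → j ≤ e → f (j, e - j) = 0) → ∀ d ∈ triD 0 e, f d = 0) :
    ∃ cc : ℕ → ℕ × ℕ → ℂ, ∀ i, e < i + w → i ≤ e →
      (∀ r ∈ rows m t, ∑ d ∈ triD 0 e, cc i d * E r.2 d (P r.1).1 (P r.1).2 = 0) ∧
      ∀ j, e < j + w → j ≤ e → cc i (j, e - j) = if j = i then 1 else 0 := by
  classical
  set D := triD 0 e with hD
  set R := rows m t with hR
  set I : Finset ℕ := (range (e + 1)).filter (fun i => e < i + w) with hI
  have hIc : I.card = w := by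
    have : I = Finset.Ico (e + 1 - w) (e + 1) := by
      ext i
      rw [hI, mem_filter, mem_range, mem_Ico]
      omega
    rw [this, Nat.card_Ico]
    omega
  have hID : ∀ i : I, ((i.1, e - i.1) : ℕ × ℕ) ∈ D := by
    intro i
    have h0 : i.1 ∈ (range (e + 1)).filter (fun i => e < i + w) := i.2
    rw [mem_filter, mem_range] at h0
    rw [hD, mem_triD]
    simp only
    omega
  set M : Matrix R D ℂ := Matrix.of
    (fun (r : R) (d : D) => E r.1.2 d.1 (P r.1.1).1 (P r.1.1).2) with hM
  set K := LinearMap.ker (Matrix.toLin' M) with hK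
  set φ : (D → ℂ) →ₗ[ℂ] (I → ℂ) :=
    LinearMap.funLeft ℂ ℂ (fun i : I => (⟨(i.1, e - i.1), hID i⟩ : D)) with hφ
  set Ψ : K →ₗ[ℂ] (I → ℂ) := φ ∘ₗ K.subtype with hΨ
  have hext : ∀ f : D → ℂ, f ∈ K → ∀ r ∈ R, ∑ d ∈ D,
      (fun d => if h : d ∈ D then f ⟨d, h⟩ else 0) d * E r.2 d (P r.1).1 (P r.1).2 = 0 := by
    intro f hf r hr
    rw [hK, LinearMap.mem_ker, Matrix.toLin'_apply] at hf
    have h1 := congrFun hf ⟨r, hr⟩
    rw [Matrix.mulVec, dotProduct, Pi.zero_apply] at h1
    refine Eq.trans ?_ h1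
    rw [← sum_coe_sort D]
    apply sum_congr rfl
    intro d _
    beta_reduce
    rw [dif_pos d.2, hM, Matrix.of_apply, mul_comm]
  have hΨi : Function.Injective Ψ := by
    rw [injective_iff_map_eq_zero]
    intro f hf
    have h1 := hu (fun d => if h : d ∈ D then f.1 ⟨d, h⟩ else 0) (hext f.1 f.2) (by
      intro j hj1 hj2
      have hjI : j ∈ I := by
        rw [hI, mem_filter, mem_range]
        omega
      have h2 := congrFun hf ⟨j, hjI⟩
      rw [Pi.zero_apply] at h2
      rw [dif_pos (hID ⟨j, hjI⟩), ← h2]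
      rfl)
    apply Subtype.ext
    funext d
    have h3 := h1 d.1 d.2
    rw [dif_pos d.2] at h3
    exact h3
  have hrk : Module.finrank ℂ K = Module.finrank ℂ (I → ℂ) := by
    have h1 := LinearMap.finrank_range_add_finrank_ker (Matrix.toLin' M)
    rw [Module.finrank_fintype_fun_eq_card, Fintype.card_coe] at h1
    have h2 := Submodule.finrank_le (LinearMap.range (Matrix.toLin' M))
    rw [Module.finrank_fintype_fun_eq_card, Fintype.card_coe] at h2
    have h3 := LinearMap.finrank_le_finrank_of_injective hΨi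
    rw [Module.finrank_fintype_fun_eq_card, Fintype.card_coe] at h3 ⊢
    rw [← hK] at h1
    omega
  have hΨs : Function.Surjective Ψ :=
    (LinearMap.injective_iff_surjective_of_finrank_eq_finrank hrk).1 hΨi
  have hex : ∀ i, ∃ f : ℕ × ℕ → ℂ, e < i + w → i ≤ e →
      (∀ r ∈ R, ∑ d ∈ D, f d * E r.2 d (P r.1).1 (P r.1).2 = 0) ∧
      ∀ j, e < j + w → j ≤ e → f (j, e - j) = if j = i then 1 else 0 := by
    intro i
    obtain ⟨k, hk⟩ := hΨs (fun j => if j.1 = i then 1 else 0)
    refine ⟨fun d => if h : d ∈ D then k.1 ⟨d, h⟩ else 0, ?_⟩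
    intro _ _
    refine ⟨hext k.1 k.2, ?_⟩
    intro j hj1 hj2
    have hjI : j ∈ I := by
      rw [hI, mem_filter, mem_range]
      omega
    have h2 := congrFun hk ⟨j, hjI⟩
    simp only at h2 ⊢
    rw [dif_pos (hID ⟨j, hjI⟩), ← h2]
    rfl
  choose cc hcc using hex
  exact ⟨cc, fun i h1 h2 => hcc i h1 h2⟩

theorem goalGNt : GoalGNt := by
  intro hCP hWr hSw hInv hGT hGNb hGNs
  intro m e t V he hInd hInj hVfin hV
  have c1 := ind_card hInd
  have c2 := inj_card hInj
  have c3 := card_tri_succ he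
  obtain ⟨w, hw⟩ : ∃ w, w = (triD 0 e).card - (rows m t).card := ⟨_, rfl⟩
  have hwe : w ≤ e + 1 := by omega
  obtain ⟨P, hP⟩ := inj_A hCP hWr hSw hInv hGT he hInd hInj (w := w) (by omega)
  have hu : ∀ f : ℕ × ℕ → ℂ, (∀ r ∈ rows m t, ∑ d ∈ triD 0 e,
      f d * E r.2 d (P r.1).1 (P r.1).2 = 0) →
      (∀ j, e < j + w → j ≤ e → f (j, e - j) = 0) → ∀ d ∈ triD 0 e, f d = 0 := by
    intro f hf hj
    have hoff : ∀ d ∈ triD 0 e, d ∉ (triD 0 e).filter (fun x => x.1 + x.2 = e → x.1 + w ≤ e) →
        f d = 0 := by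
      intro d hd hd'
      rw [mem_filter, not_and] at hd'
      have h1 := hd' hd
      rw [mem_triD] at hd
      have h2 : d.1 + d.2 = e ∧ e < d.1 + w := by
        constructor
        · by_contra hne
          exact h1 (fun h => absurd h hne)
        · by_contra hne
          exact h1 (fun _ => by omega)
      have h3 : d = (d.1, e - d.1) := Prod.ext rfl (by simp only; omega)
      rw [h3]
      exact hj d.1 h2.2 (by omega)
    have key := hP f (by
      intro r hr
      rw [← hf r hr]
      apply sum_subset (filter_subset _ _)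
      intro d hd hd'
      rw [hoff d hd hd', zero_mul])
    intro d hd
    by_cases h : d ∈ (triD 0 e).filter (fun x => x.1 + x.2 = e → x.1 + w ≤ e)
    · exact key d h
    · exact hoff d hd h
  obtain ⟨cc, hcc⟩ := basis (m := m) (t := t) (P := P) hwe (by omega) hu
  obtain ⟨t0, ε, hε, hb⟩ := hGNb hWr e w V (fun i => dg e (cc i)) hVfin (by omega) (by
    intro i hi1 hi2 j hj1
    rw [coeff_dg]
    by_cases hj2 : j ≤ e
    · rw [if_pos hj2]
      exact (hcc i hi1 hi2).2 j hj1 hj2
    · rw [if_neg hj2, if_neg (by omega)])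
  refine ⟨fun k => (ε * (P k).1 + t0 * (P k).2, (P k).2), ?_⟩
  intro c hc hG
  obtain ⟨c', hc1, hc2, hc3⟩ := hGNs m e t t0 ε P c hε hc
  -- `c'` is a combination of the basis
  have hcomb : ∀ d ∈ triD 0 e, c' d = ∑ i ∈ (range (e + 1)).filter (fun i => e < i + w),
      c' (i, e - i) * cc i d := by
    intro d hd
    have h1 := hu (fun d => c' d - ∑ i ∈ (range (e + 1)).filter (fun i => e < i + w),
      c' (i, e - i) * cc i d) (by
        intro r hr
        simp only [sub_mul, sum_sub_distrib]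
        rw [hc1 r hr, zero_sub, neg_eq_zero]
        simp only [sum_mul]
        rw [sum_comm]
        apply sum_eq_zero
        intro i hi
        rw [mem_filter, mem_range] at hi
        have h2 := (hcc i hi.2 (by omega)).1 r hr
        simp only [mul_assoc]
        rw [← mul_sum, h2, mul_zero]) (by
        intro j hj1 hj2
        rw [sub_eq_zero]
        have hjI : j ∈ (range (e + 1)).filter (fun i => e < i + w) := by
          rw [mem_filter, mem_range]
          omega
        rw [sum_eq_single_of_mem j hjI]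
        · rw [(hcc j hj1 hj2).2 j hj1 hj2, if_pos rfl, mul_one]
        · intro i hi hij
          rw [mem_filter, mem_range] at hi
          rw [(hcc i hi.2 (by omega)).2 j hj1 hj2, if_neg (fun h => hij h.symm), mul_zero]) d hd
    exact sub_eq_zero.1 h1
  have hdg : dg e c' = ∑ i ∈ (range (e + 1)).filter (fun i => e < i + w),
      Polynomial.C (c' (i, e - i)) * dg e (cc i) := by
    ext j
    rw [coeff_dg, Polynomial.finsetSum_coeff]
    simp only [Polynomial.coeff_C_mul, coeff_dg]
    by_cases hj : j ≤ e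
    · simp only [if_pos hj]
      apply hcomb
      rw [mem_triD]
      simp only
      omega
    · simp only [if_neg hj, mul_zero, sum_const_zero]
  have hG' : dg e c = (dg e c').comp
      (Polynomial.C ε⁻¹ * (Polynomial.X - Polynomial.C t0)) := by
    have h1 : dg e c' = (dg e c).comp (Polynomial.C ε * Polynomial.X + Polynomial.C t0) := hc2
    rw [h1, Polynomial.comp_assoc]
    have h2 : (Polynomial.C ε * Polynomial.X + Polynomial.C t0).comp
        (Polynomial.C ε⁻¹ * (Polynomial.X - Polynomial.C t0)) = Polynomial.X := by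
      simp only [Polynomial.add_comp, Polynomial.mul_comp, Polynomial.C_comp, Polynomial.X_comp]
      rw [← mul_assoc, ← Polynomial.C_mul, mul_inv_cancel₀ hε, Polynomial.C_1]
      ring
    rw [h2, Polynomial.comp_X]
  have hV' : (∑ i ∈ (range (e + 1)).filter (fun i => e < i + w),
      Polynomial.C (c' (i, e - i)) *
      (dg e (cc i)).comp (Polynomial.C ε⁻¹ * (Polynomial.X - Polynomial.C t0))) ∈ V := by
    have h1 : dg e c ∈ V := hG
    rw [hG', hdg, Polynomial.sum_comp] at h1
    simpa only [Polynomial.mul_comp, Polynomial.C_comp] using h1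
  have ha := hb (fun i => c' (i, e - i)) hV'
  apply hc3
  intro d hd
  rw [hcomb d hd]
  apply sum_eq_zero
  intro i hi
  rw [mem_filter, mem_range] at hi
  have h1 := ha i hi.2 (by omega)
  rw [h1, zero_mul]

end Pool.Agent.Helper56.UN
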