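import Pool.Agent.Helper43.UN.GoalsR
import Pool.Agent.Helper34.UW.R2

/-!
# UN-R2n: the real play is stopped (general profile)
-/

set_option autoImplicit false

namespace Pool.Agent.Helper56.UN

open Finset
open Pool.Agent.Lead.Sh
open Pool.Agent.Helper43.Hw (T na va lz Play aa ac sc oo sk U Dd Sd Pn nx bb np)
open Pool.Agent.Helper18.UW (Par4 UPlay uz UPre GoalU1 GoalUC)
open Pool.Agent.Helper34.UW (mono_of exists_step stop num)
open Pool.Agent.Helper43.UN

theorem goalR2n (_hU1 : GoalU1) (hUC : GoalUC) (hR1 : GoalR1n) (hR6d : GoalR6dn) : GoalR2n := by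
  intro m ms M Mb μ δ R A E0 βp βm N00 N0 N K b l Lg q v ℓ W hS
  obtain ⟨n1, n2, n3, n4, n5⟩ := num hS.par hS.vb hS.vc
  obtain ⟨κ1, x1, hpre, hz, hkN, hn0, hn00⟩ := hR1 m M Mb μ R A E0 N00 N0 N ℓ _ hS.sg
  have hM := hS.sg.μM
  have hRM := hS.sg.pf.R1
  have hMb := hS.sg.pf.MMb
  have hE1 := hS.sg.pf.E1
  have hRE := hS.sg.pf.RE
  have hd := hS.d1
  have hm : ∀ c < N, 1 ≤ m c ∧ m c + 2 ≤ R := by
    intro c hc
    rcases Nat.lt_or_ge c N0 with h | h
    · rcases Nat.lt_or_ge c N00 with h' | h'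
      · have := hS.sg.pre0 c h'
        omega
      · have := hS.sg.pre c h' h
        omega
    · have := hS.sg.main c h hc
      omega
  have hmμ : ∀ c, N0 ≤ c → c < N → m c ≤ μ := fun c h1 h2 => (hS.main c h1 h2).2
  obtain ⟨κ, x, hP, hag, huz⟩ := hUC m R N (R - 1 - μ) κ1 x1 hm (by omega) hpre
  have hκJ : κ (R - 1 - μ) < N := by
    rw [(hag _ le_rfl).1]
    exact hkN
  have hκ0 : N0 ≤ κ (R - 60 * M) := by
    rw [(hag (R - 60 * M) (by omega)).1]
    exact hn0
  have hκ00 : N00 ≤ κ (R - E0 - 2 * Mb) := by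
    rw [(hag (R - E0 - 2 * Mb) (by omega)).1]
    exact hn00
  have hex : ∀ z ≤ R - 1 - μ, uz m R N κ x z = ℓ z := by
    intro z hz'
    rw [huz z hz', hz z hz']
  have hB : Bx m M Mb μ R E0 N00 N0 N (R - 1 - μ) ℓ κ x :=
    { play := hP
      YJ := by omega
      ex := fun z hz' => hex z hz'.le
      exY := (hex _ le_rfl).le
      kN := hκJ
      n0 := hκ0
      n00 := hκ00 }
  have h6 := (hR6d m ms M Mb μ δ R A E0 βp βm N00 N0 N K b l Lg q v (R - 1 - μ) ℓ W κ x hS hB).2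
    (R - 1 - μ - 2 ^ q * v) (by omega) (by omega)
  obtain ⟨τ, t1, t2, t3⟩ := exists_step l h6
  have hτJ : τ ≤ R - 1 - μ := by omega
  have hMτ : R - 60 * M < τ := by omega
  have hMτ' : R - E0 - 2 * Mb < τ := by omega
  have hg0 : N0 ≤ κ τ := hκ0.trans (mono_of hP.mono hMτ.le (by omega))
  have hgN : κ τ < N := lt_of_le_of_lt (mono_of hP.mono hτJ (by omega)) hκJ
  have hmg := hmμ _ hg0 hgN
  have hmg1 := (hm _ hgN).1
  obtain ⟨s1, s2, s3⟩ := stop hP (by omega) hmg1 (by omega) t3 hgN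
  have hx : x τ < μ := lt_of_lt_of_le (hP.lt τ (by omega) hgN) hmg
  have hu := hex τ hτJ
  refine ⟨τ, _, _,
    { play := s1
      t1 := by omega
      t2 := by omega
      ex := fun z hz' => by rw [s2 z hz']; exact hex z (by omega)
      t0 := by omega
      t3 := by omega
      g1 := ?_
      g2 := ?_
      pa := ?_
      n0 := ?_
      n00 := ?_ }⟩
  · show (if τ - 1 < τ then κ (τ - 1) else κ τ) < (if τ < τ then κ τ else κ τ)
    rw [if_pos (by omega), if_neg (lt_irrefl _)]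
    exact t3
  · show (if τ < τ then κ τ else κ τ) < N
    rw [if_neg (lt_irrefl _)]
    exact hgN
  · intro y hy _
    show (if y < τ then κ y else κ τ) = (if τ < τ then κ τ else κ τ) ∧
      (if y < τ then x y else na (m (κ τ)) R y) = na (m (if τ < τ then κ τ else κ τ)) R y
    rw [if_neg (not_lt.2 hy), if_neg (not_lt.2 hy), if_neg (lt_irrefl _)]
    exact ⟨rfl, rfl⟩
  · show N0 ≤ (if R - 60 * M < τ then κ (R - 60 * M) else κ τ)
    rw [if_pos hMτ]
    exact hκ0
  · show N00 ≤ (if R - E0 - 2 * Mb < τ then κ (R - E0 - 2 * Mb) else κ τ)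
    rw [if_pos hMτ']
    exact hκ00

end Pool.Agent.Helper56.UN
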