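import Mathlib
import Pool.Agent.Helper43.UN.GoalsH

/-!
# Project UN (MP_d3128a_ag): packet ShN1 (the shape of the cubic)
-/

set_option autoImplicit false

namespace Pool.Agent.Helper56.UN

open Finset
open Pool.Agent.Helper43.UN
open Pool.Agent.Helper18.UW (lg)
open Pool.Agent.Helper18.SG (GoalT1)
open Helper18.Cusp (Red rr kap rr_wall rr_anti)

theorem conc_up (s : ℕ → ℤ) (τ : ℕ)
    (h : ∀ b, b + 2 ≤ τ → s b + s (b + 2) ≤ 2 * s (b + 1)) :
    ∀ b, b + 1 ≤ τ → (b : ℤ) * s (b + 1) + s 0 ≤ ((b : ℤ) + 1) * s b := by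
  intro b
  induction b with
  | zero => intro _; simp
  | succ b ih =>
    intro hb
    have h1 := ih (by omega)
    have h2 := h b (by omega)
    have h3 : ((b : ℤ) + 1) * (s b + s (b + 2)) ≤ ((b : ℤ) + 1) * (2 * s (b + 1)) :=
      mul_le_mul_of_nonneg_left h2 (by positivity)
    push_cast
    have e : b + 1 + 1 = b + 2 := rfl
    rw [e]
    nlinarith

theorem conc_down (s : ℕ → ℤ) (τ : ℕ)
    (h : ∀ b, b + 2 ≤ τ → s b + s (b + 2) ≤ 2 * s (b + 1)) :
    ∀ k b, b + k = τ → (b : ℤ) * s τ + (k : ℤ) * s 0 ≤ (τ : ℤ) * s b := by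
  intro k
  induction k with
  | zero =>
    intro b hb
    obtain rfl : b = τ := by omega
    simp
  | succ k ih =>
    intro b hb
    have h1 := ih (b + 1) (by omega)
    have h2 := conc_up s τ h b (by omega)
    have h3 : (τ : ℤ) * ((b : ℤ) * s (b + 1) + s 0) ≤ (τ : ℤ) * (((b : ℤ) + 1) * s b) :=
      mul_le_mul_of_nonneg_left h2 (by positivity)
    have h4 : (b : ℤ) * (((b + 1 : ℕ) : ℤ) * s τ + (k : ℤ) * s 0) ≤ (b : ℤ) * ((τ : ℤ) * s (b + 1)) :=
      mul_le_mul_of_nonneg_left h1 (by positivity)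
    have h5 : (τ : ℤ) = (b : ℤ) + (k : ℤ) + 1 := by
      rw [← hb]; push_cast; ring
    have h6 : ((b : ℤ) + 1) * ((b : ℤ) * s τ + ((k + 1 : ℕ) : ℤ) * s 0) ≤
        ((b : ℤ) + 1) * ((τ : ℤ) * s b) := by
      have h7 : (b : ℤ) * (((b + 1 : ℕ) : ℤ) * s τ + (k : ℤ) * s 0) + (τ : ℤ) * s 0 =
          ((b : ℤ) + 1) * ((b : ℤ) * s τ + ((k + 1 : ℕ) : ℤ) * s 0) := by
        rw [h5]; push_cast; ring
      rw [← h7]
      linarith
    exact le_of_mul_le_mul_left h6 (by positivity)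

theorem conc_sum (s : ℕ → ℤ) (τ : ℕ) (hτ : 1 ≤ τ) (h0 : 0 ≤ s τ)
    (h : ∀ b, b + 2 ≤ τ → s b + s (b + 2) ≤ 2 * s (b + 1)) :
    ((τ : ℤ) + 1) * s 0 ≤ 2 * ∑ b ∈ range (τ + 1), s b := by
  have h1 : ∀ b ∈ range (τ + 1), ((τ : ℤ) - b) * s 0 ≤ (τ : ℤ) * s b := by
    intro b hb
    have hb' : b ≤ τ := by have := mem_range.1 hb; omega
    have h2 := conc_down s τ h (τ - b) b (by omega)
    have h3 : (0 : ℤ) ≤ (b : ℤ) * s τ := mul_nonneg (by positivity) h0
    have h4 : ((τ - b : ℕ) : ℤ) = (τ : ℤ) - b := by push_cast [hb']; ring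
    rw [h4] at h2
    linarith
  have h2 := sum_le_sum h1
  rw [← sum_mul, ← mul_sum] at h2
  have h3 : 2 * ∑ b ∈ range (τ + 1), ((τ : ℤ) - b) = (τ : ℤ) * (τ + 1) := by
    have h4 : ∑ b ∈ range (τ + 1), ((τ : ℤ) - b) = ∑ b ∈ range (τ + 1), (b : ℤ) := by
      rw [← sum_range_reflect (fun b => (b : ℤ))]
      refine sum_congr rfl fun b hb => ?_
      have := mem_range.1 hb
      have e : τ + 1 - 1 - b = τ - b := by omega
      rw [e]
      push_cast [show b ≤ τ by omega]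
      ring
    rw [h4]
    have h5 := Finset.sum_range_id_mul_two (τ + 1)
    have h6 : ((∑ i ∈ range (τ + 1), i : ℕ) : ℤ) * 2 = ((τ + 1) * (τ + 1 - 1) : ℕ) := by
      exact_mod_cast h5
    push_cast at h6
    linarith
  have h4 : (τ : ℤ) * (((τ : ℤ) + 1) * s 0) ≤ (τ : ℤ) * (2 * ∑ b ∈ range (τ + 1), s b) := by
    have h5 : (2 * ∑ b ∈ range (τ + 1), ((τ : ℤ) - b)) * s 0 ≤
        2 * ((τ : ℤ) * ∑ b ∈ range (τ + 1), s b) := by
      rw [mul_assoc]
      linarith
    rw [h3] at h5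
    linarith
  exact le_of_mul_le_mul_left h4 (by exact_mod_cast hτ)

theorem goalShN1 : GoalShN1 := by
  intro hT1 hT d M τ a hr hM hM8 hp hex hA hR hAR
  obtain ⟨c1, c2, c3, _⟩ := hT d a hr
  obtain ⟨t1, t2, t3⟩ := hT1 d a hr
  have hlg : 1 ≤ lg M ^ 3 := Nat.one_le_pow _ _ (by unfold lg; omega)
  have hbig : 2 ^ 400 * M ≤ 2 ^ 400 * lg M ^ 3 * M := by
    refine Nat.mul_le_mul_right M ?_
    exact Nat.le_mul_of_pos_right _ hlg
  have h2000 : 2000 ≤ 2 ^ 400 :=
    le_trans (show 2000 ≤ 2 ^ 11 by norm_num) (Nat.pow_le_pow_right (by norm_num) (by norm_num))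
  have h950 : 2000 * M ≤ 2 ^ 400 * M := Nat.mul_le_mul_right M h2000
  have hτ : 2000 * M ≤ τ + 1 := by omega
  have hkap : M ≤ kap d a := by omega
  have hpos : ∀ b, b ≤ τ → (a 0 - b) + 3 * b ≤ d := fun b hb => (t1 b).1 ((hp b).2 hb)
  refine ⟨hM, le_rfl, hA, hR, hAR, by omega, by omega, rr_wall hr (by omega), ?_, ?_, ?_, ?_, ?_,
    ?_⟩
  · intro j hj
    exact (hp j).2 (by omega)
  · intro j _
    exact rr_anti hr j
  · intro j hj
    rcases Nat.lt_or_ge (rr d a (j + 1)) (rr d a j) with h | h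
    · exact Or.inl h
    · right
      rcases Nat.lt_or_ge j (a 8) with h1 | h1
      · rw [rr_wall hr h1] at h
        omega
      · have := c3 hex j h1 ((hp (j + 1)).2 (by omega))
        omega
  · intro j hj
    rw [Nat.add_zero, rr_wall hr (show j < a 8 by omega)]
    rcases Nat.lt_or_ge (j + 1) (a 8) with h1 | h1
    · rw [rr_wall hr h1]
    · have e : j + 1 = a 8 := by omega
      rw [e]
      have h2 := hpos (a 8 + 1) (by omega)
      exact (c2 (by omega)).symm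
  · intro j _ h2
    have h3 := hpos (j + 2) (by omega)
    exact c1 j (by omega)
  · have hs := conc_sum (fun b => (rr d a b : ℤ) - (if b = τ then 1 else 0)) τ (by omega)
      (by
        have := (hp τ).2 le_rfl
        simp only [if_true]
        omega)
      (by
        intro b hb
        beta_reduce
        rw [if_neg (show b ≠ τ by omega), if_neg (show b + 1 ≠ τ by omega)]
        split_ifs with h
        · have h1 := t3 b ((hp (b + 2)).2 (by omega))
          omega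
        · have h1 := t2 b ((hp (b + 3)).2 (by omega))
          omega)
    rw [sum_sub_distrib, sum_ite_eq' (range (τ + 1)) τ, if_pos (mem_range.2 (by omega)),
      if_neg (show (0 : ℕ) ≠ τ by omega), rr_wall hr (show 0 < a 8 by omega)] at hs
    have h1 : ((τ : ℤ) + 1) * (kap d a : ℤ) ≤ 2 * ∑ b ∈ range (τ + 1), (rr d a b : ℤ) := by
      linarith
    have h2 : (τ + 1) * kap d a ≤ 2 * ∑ b ∈ range (τ + 1), rr d a b := by
      exact_mod_cast h1
    have h3 : kap d a * (τ + 1) = (τ + 1) * kap d a := Nat.mul_comm _ _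
    omega

end Pool.Agent.Helper56.UN
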